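import Pool.Agent.H54.CP.Dil
import Mathlib.Data.Fintype.Pi
import Mathlib.Algebra.BigOperators.Fin
import Mathlib.Algebra.Order.BigOperators.Group.Finset
import Mathlib.Data.Finset.SymmDiff

/-!
# [CCC P3] Upward closed subsets of a finite partially ordered set of small width:
coordinates, counting and packing
-/

set_option autoImplicit false

namespace Pool.Agent.H54.CP

variable {α : Type*} [PartialOrder α] [DecidableEq α]

/-- upward closed subsets of `U` -/
def IsUp (U A : Finset α) : Prop := A ⊆ U ∧ ∀ h ∈ A, ∀ k ∈ U, h ≤ k → k ∈ A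

/-- every antichain of `U` has at most `n` elements -/
def Width (n : ℕ) (U : Finset α) : Prop := ∀ t ⊆ U, IsAntichain (· ≤ ·) (t : Set α) → t.card ≤ n

/-- the number of elements of colour `i` -/
def pc (c : α → ℕ) (A : Finset α) (i : ℕ) : ℕ := (A.filter (fun h => c h = i)).card

omit [DecidableEq α] in
theorem up_comparable {U A B : Finset α} {c : α → ℕ} (hA : IsUp U A) (hB : IsUp U B)
    (hc : ∀ x ∈ U, ∀ y ∈ U, c x = c y → x ≤ y ∨ y ≤ x) (i : ℕ) :
    A.filter (fun h => c h = i) ⊆ B.filter (fun h => c h = i) ∨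
      B.filter (fun h => c h = i) ⊆ A.filter (fun h => c h = i) := by
  by_contra hcon
  rw [not_or, Finset.not_subset, Finset.not_subset] at hcon
  obtain ⟨⟨x, hx, hx'⟩, y, hy, hy'⟩ := hcon
  rw [Finset.mem_filter] at hx hx' hy hy'
  rcases hc x (hA.1 hx.1) y (hB.1 hy.1) (hx.2.trans hy.2.symm) with h | h
  · exact hy' ⟨hA.2 x hx.1 y (hB.1 hy.1) h, hy.2⟩
  · exact hx' ⟨hB.2 y hy.1 x (hA.1 hx.1) h, hx.2⟩

theorem card_symmDiff_colour {U A B : Finset α} {c : α → ℕ} (hA : IsUp U A) (hB : IsUp U B)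
    (hc : ∀ x ∈ U, ∀ y ∈ U, c x = c y → x ≤ y ∨ y ≤ x) (i : ℕ) :
    ((symmDiff A B).filter (fun h => c h = i)).card = ((pc c A i : ℤ) - pc c B i).natAbs := by
  have key : ∀ {A B : Finset α}, A.filter (fun h => c h = i) ⊆ B.filter (fun h => c h = i) →
      ((symmDiff A B).filter (fun h => c h = i)).card = ((pc c A i : ℤ) - pc c B i).natAbs := by
    intro A B h
    have h1 : (symmDiff A B).filter (fun h => c h = i) =
        B.filter (fun h => c h = i) \ A.filter (fun h => c h = i) := by
      ext x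
      have h2 := @h x
      simp only [Finset.mem_filter, Finset.mem_symmDiff, Finset.mem_sdiff] at h2 ⊢
      tauto
    have h2 := Finset.card_sdiff_add_card_eq_card h
    rw [h1]
    unfold pc
    omega
  rcases up_comparable hA hB hc i with h | h
  · exact key h
  · rw [symmDiff_comm, key h, ← Int.natAbs_neg]
    congr 1
    ring

/-- the distance in coordinates -/
theorem card_symmDiff_eq {U A B : Finset α} {c : α → ℕ} {n : ℕ} (hA : IsUp U A) (hB : IsUp U B)
    (hcn : ∀ x ∈ U, c x < n) (hc : ∀ x ∈ U, ∀ y ∈ U, c x = c y → x ≤ y ∨ y ≤ x) :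
    (symmDiff A B).card = ∑ i ∈ Finset.range n, ((pc c A i : ℤ) - pc c B i).natAbs := by
  have h1 : ∀ x ∈ symmDiff A B, c x ∈ Finset.range n := by
    intro x hx
    rw [Finset.mem_range]
    rcases Finset.mem_symmDiff.1 hx with h | h
    · exact hcn x (hA.1 h.1)
    · exact hcn x (hB.1 h.1)
  rw [Finset.card_eq_sum_card_fiberwise h1]
  exact Finset.sum_congr rfl fun i _ => card_symmDiff_colour hA hB hc i

theorem le_of_symmDiff {U A B : Finset α} {c : α → ℕ} {n : ℕ} (hA : IsUp U A) (hB : IsUp U B)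
    (hcn : ∀ x ∈ U, c x < n) (hc : ∀ x ∈ U, ∀ y ∈ U, c x = c y → x ≤ y ∨ y ≤ x) {i : ℕ} (hi : i < n) :
    ((pc c A i : ℤ) - pc c B i).natAbs ≤ (symmDiff A B).card := by
  rw [card_symmDiff_eq hA hB hcn hc]
  exact Finset.single_le_sum (f := fun i => ((pc c A i : ℤ) - pc c B i).natAbs)
    (fun _ _ => Nat.zero_le _) (Finset.mem_range.2 hi)

/-- a general counting lemma: cells of side `b` -/
theorem count_cells {n t a b : ℕ} {U B0 : Finset α} (hU : Width n U) (hB0 : IsUp U B0)
    (F : Finset (Finset α)) (hF : ∀ A ∈ F, IsUp U A) (ht : ∀ A ∈ F, (symmDiff A B0).card ≤ t)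
    (hb : 0 < b) (hab : n * (b - 1) ≤ a)
    (ha : ∀ A ∈ F, ∀ B ∈ F, A ≠ B → a < (symmDiff A B).card) :
    F.card ≤ (2 * t / b + 1) ^ n := by
  classical
  obtain ⟨c, hcn, hc⟩ := dilworth U.card U n le_rfl hU
  set φ : Finset α → (Fin n → ℕ) := fun A i => ((pc c A i : ℤ) - pc c B0 i + t).toNat / b with hφ
  have h0 : ∀ A ∈ F, ∀ i : Fin n, ((pc c A i : ℤ) - pc c B0 i).natAbs ≤ t := fun A hA i =>
    (le_of_symmDiff (hF A hA) hB0 hcn hc i.2).trans (ht A hA)
  have h1 : ∀ A ∈ F, φ A ∈ Fintype.piFinset (fun _ : Fin n => Finset.range (2 * t / b + 1)) := by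
    intro A hA
    rw [Fintype.mem_piFinset]
    intro i
    rw [Finset.mem_range, Nat.lt_succ_iff]
    refine Nat.div_le_div_right ?_
    have := h0 A hA i
    omega
  have h2 : Set.InjOn φ (F : Set (Finset α)) := by
    intro A hA B hB hAB
    by_contra hne
    have h3 := ha A hA B hB hne
    rw [card_symmDiff_eq (hF A hA) (hF B hB) hcn hc] at h3
    have h4 : ∀ i ∈ Finset.range n, ((pc c A i : ℤ) - pc c B i).natAbs ≤ b - 1 := by
      intro i hi
      have h5 := congrFun hAB ⟨i, Finset.mem_range.1 hi⟩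
      have h6 := h0 A hA ⟨i, Finset.mem_range.1 hi⟩
      have h7 := h0 B hB ⟨i, Finset.mem_range.1 hi⟩
      simp only [hφ] at h5
      simp only at h6 h7
      set u := ((pc c A i : ℤ) - pc c B0 i + t).toNat with hu
      set v := ((pc c B i : ℤ) - pc c B0 i + t).toNat with hv
      have h8 : (u : ℤ) = (pc c A i : ℤ) - pc c B0 i + t := by omega
      have h9 : (v : ℤ) = (pc c B i : ℤ) - pc c B0 i + t := by omega
      have h10 := Nat.div_add_mod u b
      have h11 := Nat.div_add_mod v b
      have h12 := Nat.mod_lt u hb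
      have h13 := Nat.mod_lt v hb
      rw [h5] at h10
      have h14 : ((pc c A i : ℤ) - pc c B i) = (u : ℤ) - v := by omega
      rw [h14]
      generalize b * (v / b) = w at h10 h11
      omega
    have h5 := Finset.sum_le_sum h4
    rw [Finset.sum_const, Finset.card_range, smul_eq_mul] at h5
    omega
  have h3 := Finset.card_le_card_of_injOn φ h1 h2
  rw [Fintype.card_piFinset] at h3
  simpa using h3

/-- COUNTING: at most `(2t+1)^n` upward closed sets at distance at most `t` -/
theorem count_ideals {n t : ℕ} {U B0 : Finset α} (hU : Width n U) (hB0 : IsUp U B0)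
    (F : Finset (Finset α)) (hF : ∀ A ∈ F, IsUp U A) (ht : ∀ A ∈ F, (symmDiff A B0).card ≤ t) :
    F.card ≤ (2 * t + 1) ^ n := by
  have h := count_cells (a := 0) (b := 1) hU hB0 F hF ht Nat.one_pos (by simp) (by
    intro A _ B _ hne
    rw [Finset.card_pos]
    rw [Finset.nonempty_iff_ne_empty]
    intro h
    exact hne (symmDiff_eq_bot.1 h))
  rwa [Nat.div_one] at h

/-- PACKING: at most `(8n+1)^n` upward closed sets of pairwise distance `> a` at distance at most `4a` -/
theorem pack_ideals {n a : ℕ} {U B0 : Finset α} (hU : Width n U) (hB0 : IsUp U B0)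
    (F : Finset (Finset α)) (hF : ∀ A ∈ F, IsUp U A) (ht : ∀ A ∈ F, (symmDiff A B0).card ≤ 4 * a)
    (ha : ∀ A ∈ F, ∀ B ∈ F, A ≠ B → a < (symmDiff A B).card) :
    F.card ≤ (8 * n + 1) ^ n := by
  rcases Nat.eq_zero_or_pos a with h0 | hapos
  · subst h0
    have h1 := count_ideals (t := 0) hU hB0 F hF (fun A hA => by simpa using ht A hA)
    rw [Nat.mul_zero, Nat.zero_add, one_pow] at h1
    exact h1.trans (Nat.one_le_pow _ _ (Nat.succ_pos _))
  rcases Nat.eq_zero_or_pos n with h0 | hn
  · subst h0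
    have h := count_cells (t := 4 * a) (a := a) (b := 1) hU hB0 F hF ht Nat.one_pos (by simp) ha
    simpa using h
  · -- cells of side `b`, the least number with `a ≤ n * b`
    set b := (a + n - 1) / n with hb
    have hb1 : n * b ≤ a + n - 1 := Nat.mul_div_le _ _
    have hb2 : a ≤ n * b := by
      have h1 := Nat.div_add_mod (a + n - 1) n
      have h2 := Nat.mod_lt (a + n - 1) hn
      rw [← hb] at h1
      omega
    have hbpos : 0 < b := by
      rcases Nat.eq_zero_or_pos b with h | h
      · rw [h] at hb2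
        omega
      · exact h
    have hab : n * (b - 1) ≤ a := by
      rw [Nat.mul_sub, Nat.mul_one]
      omega
    have h := count_cells (t := 4 * a) (a := a) (b := b) hU hB0 F hF ht hbpos hab ha
    refine h.trans (Nat.pow_le_pow_left (Nat.succ_le_succ ?_) n)
    refine Nat.div_le_of_le_mul ?_
    calc 2 * (4 * a) = 8 * a := by ring
      _ ≤ 8 * (n * b) := Nat.mul_le_mul_left 8 hb2
      _ = b * (8 * n) := by ring

end Pool.Agent.H54.CP
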