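import Mathlib.Order.Antichain
import Mathlib.Order.Preorder.Chain
import Mathlib.Data.Finset.Max
import Mathlib.Order.Preorder.Finite
import Mathlib.Data.Set.Card
import Mathlib.Tactic

/-!
# [CCC P3] Theorems of Mirsky and Dilworth for finite subsets of partially ordered sets
-/

set_option autoImplicit false

namespace Pool.Agent.H54.CP

variable {α : Type*} [PartialOrder α]

/-- a finite set without long chains and without large antichains is small -/
theorem mirsky {n : ℕ} : ∀ (l : ℕ) (s : Finset α), (∀ t ⊆ s, IsAntichain (· ≤ ·) (t : Set α) → t.card ≤ n) →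
    (∀ t ⊆ s, IsChain (· ≤ ·) (t : Set α) → t.card ≤ l) → s.card ≤ n * l := by
  classical
  intro l
  induction l with
  | zero =>
    intro s _ hl
    rcases s.eq_empty_or_nonempty with h | ⟨x, hx⟩
    · rw [h]; simp
    · have h1 := hl {x} (Finset.singleton_subset_iff.2 hx) (by
        rw [Finset.coe_singleton]
        exact Set.subsingleton_singleton.isChain)
      simp at h1
  | succ l ih =>
    intro s hn hl
    set t : Finset α := s.filter (fun x => ∀ y ∈ s, y ≤ x → y = x) with ht
    have hts : t ⊆ s := Finset.filter_subset _ _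
    have h1 : t.card ≤ n := by
      refine hn t hts ?_
      intro x hx y hy hne hle
      rw [ht, Finset.coe_filter] at hx hy
      exact hne (hy.2 x hx.1 hle)
    have h2 : (s \ t).card ≤ n * l := by
      refine ih (s \ t) (fun u hu => hn u (hu.trans Finset.sdiff_subset)) ?_
      intro u hu hc
      rcases u.eq_empty_or_nonempty with h | hne
      · rw [h]; simp
      · -- the least element of the chain
        obtain ⟨x, hx, hmin⟩ := u.exists_minimal hne
        have hleast : ∀ y ∈ u, x ≤ y := by
          intro y hy
          rcases hc.total hx hy with h | h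
          · exact h
          · exact hmin hy h
        have hxs := Finset.mem_sdiff.1 (hu hx)
        have h3 : ∃ z ∈ s, z ≤ x ∧ z ≠ x := by
          by_contra hcon
          push Not at hcon
          exact hxs.2 (Finset.mem_filter.2 ⟨hxs.1, hcon⟩)
        obtain ⟨z, hz, hzx, hne'⟩ := h3
        have hzu : z ∉ u := fun h => hne' (le_antisymm hzx (hleast z h))
        have h4 := hl (insert z u) (Finset.insert_subset hz (hu.trans Finset.sdiff_subset)) (by
          rw [Finset.coe_insert]
          refine hc.insert fun y hy _ => Or.inl (hzx.trans (hleast y hy)))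
        rw [Finset.card_insert_of_notMem hzu] at h4
        omega
    have h3 := Finset.card_sdiff_add_card_eq_card hts
    have h4 : n * (l + 1) = n * l + n := by ring
    omega

/-- the theorem of Dilworth: a colouring such that elements of the same colour are comparable -/
theorem dilworth : ∀ (m : ℕ) (s : Finset α) (n : ℕ), s.card ≤ m →
    (∀ t ⊆ s, IsAntichain (· ≤ ·) (t : Set α) → t.card ≤ n) →
    ∃ c : α → ℕ, (∀ x ∈ s, c x < n) ∧ ∀ x ∈ s, ∀ y ∈ s, c x = c y → x ≤ y ∨ y ≤ x := by
  classical
  intro m
  induction m with
  | zero =>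
    intro s n hs _
    have h : s = ∅ := Finset.card_eq_zero.1 (Nat.le_zero.1 hs)
    exact ⟨fun _ => 0, by simp [h], by simp [h]⟩
  | succ m ih =>
    intro s n hs hn
    rcases s.eq_empty_or_nonempty with h | hne
    · exact ⟨fun _ => 0, by simp [h], by simp [h]⟩
    obtain ⟨a, ha, hmax⟩ := s.exists_maximal hne
    have hamax : ∀ y ∈ s, a ≤ y → y = a := fun y hy h => le_antisymm (hmax hy h) h
    set s' := s.erase a with hs'
    have hcard : s'.card ≤ m := by
      rw [hs', Finset.card_erase_of_mem ha]
      omega
    have hsub : s' ⊆ s := Finset.erase_subset _ _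
    have has' : a ∉ s' := Finset.notMem_erase _ _
    -- the width of `s'`
    obtain ⟨B0, hB0, hB0max⟩ : ∃ B : Finset α, (B ⊆ s' ∧ IsAntichain (· ≤ ·) (B : Set α)) ∧
        ∀ t ⊆ s', IsAntichain (· ≤ ·) (t : Set α) → t.card ≤ B.card := by
      have hfin : (s'.powerset.filter (fun t : Finset α => IsAntichain (· ≤ ·) (t : Set α))).Nonempty :=
        ⟨∅, Finset.mem_filter.2 ⟨Finset.empty_mem_powerset _, by
          rw [Finset.coe_empty]
          exact Set.subsingleton_empty.isAntichain _⟩⟩
      obtain ⟨B, hB, hBm⟩ := Finset.exists_max_image _ Finset.card hfin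
      rw [Finset.mem_filter, Finset.mem_powerset] at hB
      exact ⟨B, hB, fun t ht hta => hBm t (Finset.mem_filter.2 ⟨Finset.mem_powerset.2 ht, hta⟩)⟩
    set k := B0.card with hk
    obtain ⟨c, hc1, hc2⟩ := ih s' k hcard hB0max
    -- antichains with `k` elements meet every class
    have hmeet : ∀ B ⊆ s', IsAntichain (· ≤ ·) (B : Set α) → B.card = k → ∀ i < k, ∃ y ∈ B, c y = i := by
      intro B hB hBa hBk i hi
      have hinj : Set.InjOn c (B : Set α) := by
        intro x hx y hy hxy
        by_contra hne
        rcases hc2 x (hB hx) y (hB hy) hxy with h | h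
        · exact hBa hx hy hne h
        · exact hBa hy hx (Ne.symm hne) h
      have himg : B.image c = Finset.range k := by
        refine Finset.eq_of_subset_of_card_le ?_ ?_
        · intro j hj
          obtain ⟨y, hy, rfl⟩ := Finset.mem_image.1 hj
          exact Finset.mem_range.2 (hc1 y (hB hy))
        · rw [Finset.card_range, Finset.card_image_of_injOn hinj, hBk]
      have : i ∈ B.image c := by
        rw [himg]
        exact Finset.mem_range.2 hi
      obtain ⟨y, hy, hyi⟩ := Finset.mem_image.1 this
      exact ⟨y, hy, hyi⟩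
    -- the greatest elements of the classes which are in large antichains
    have hx : ∀ i, i < k → ∃ x ∈ s', c x = i ∧ (∃ B ⊆ s', IsAntichain (· ≤ ·) (B : Set α) ∧ B.card = k ∧ x ∈ B) ∧
        ∀ y ∈ s', c y = i → (∃ B ⊆ s', IsAntichain (· ≤ ·) (B : Set α) ∧ B.card = k ∧ y ∈ B) → y ≤ x := by
      intro i hi
      set t := s'.filter (fun x => c x = i ∧ ∃ B ⊆ s', IsAntichain (· ≤ ·) (B : Set α) ∧ B.card = k ∧ x ∈ B) with ht
      have htne : t.Nonempty := by
        obtain ⟨y, hy, hyi⟩ := hmeet B0 hB0.1 hB0.2 rfl i hi
        exact ⟨y, Finset.mem_filter.2 ⟨hB0.1 hy, hyi, B0, hB0.1, hB0.2, rfl, hy⟩⟩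
      obtain ⟨x, hxt, hxmax⟩ := t.exists_maximal htne
      have hxt' := Finset.mem_filter.1 hxt
      refine ⟨x, hxt'.1, hxt'.2.1, hxt'.2.2, fun y hy hyi hyB => ?_⟩
      have hyt : y ∈ t := Finset.mem_filter.2 ⟨hy, hyi, hyB⟩
      rcases hc2 y hy x hxt'.1 (by rw [hyi, hxt'.2.1]) with h | h
      · exact h
      · exact hxmax hyt h
    have : Inhabited α := ⟨a⟩
    choose! x hx1 hx2 hx3 hx4 using hx
    have hanti : ∀ i < k, ∀ j < k, i ≠ j → ¬ x j ≤ x i := by
      intro i hi j hj hij hle
      obtain ⟨B, hB, hBa, hBk, hxB⟩ := hx3 i hi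
      obtain ⟨y, hyB, hyj⟩ := hmeet B hB hBa hBk j hj
      have h1 : y ≤ x j := hx4 j hj y (hB hyB) hyj ⟨B, hB, hBa, hBk, hyB⟩
      have hne : y ≠ x i := by
        rintro rfl
        rw [hx2 i hi] at hyj
        exact hij hyj
      exact hBa hyB hxB hne (h1.trans hle)
    by_cases hcase : ∃ i < k, x i ≤ a
    · -- case 1
      obtain ⟨i, hi, hxi⟩ := hcase
      have hkn : k ≤ n := hn B0 (hB0.1.trans hsub) hB0.2
      set K := s.filter (fun z => z = a ∨ (z ∈ s' ∧ c z = i ∧ z ≤ x i)) with hK
      have haK : a ∈ K := Finset.mem_filter.2 ⟨ha, Or.inl rfl⟩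
      obtain ⟨c', hc1', hc2'⟩ := ih (s \ K) (k - 1) (by
          have h1 : (s \ K).card < s.card := Finset.card_lt_card
            ⟨Finset.sdiff_subset, fun h => (Finset.mem_sdiff.1 (h ha)).2 haK⟩
          omega) (by
        intro t ht hta
        have htn : a ∉ t := fun h => (Finset.mem_sdiff.1 (ht h)).2 haK
        have hts' : t ⊆ s' := fun z hz => Finset.mem_erase.2
          ⟨fun h => htn (h ▸ hz), (Finset.mem_sdiff.1 (ht hz)).1⟩
        have h1 := hB0max t hts' hta
        by_contra hcon
        have h2 : t.card = k := by omega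
        obtain ⟨y, hy, hyi⟩ := hmeet t hts' hta h2 i hi
        have h3 := hx4 i hi y (hts' hy) hyi ⟨t, hts', hta, h2, hy⟩
        exact (Finset.mem_sdiff.1 (ht hy)).2 (Finset.mem_filter.2 ⟨hsub (hts' hy), Or.inr ⟨hts' hy, hyi, h3⟩⟩))
      refine ⟨fun z => if z ∈ K then k - 1 else c' z, fun z hz => ?_, fun z hz w hw hzw => ?_⟩
      · by_cases h : z ∈ K
        · simp only [h, if_true]
          omega
        · simp only [h, if_false]
          have := hc1' z (Finset.mem_sdiff.2 ⟨hz, h⟩)
          omega
      · by_cases h : z ∈ K
        · by_cases h' : w ∈ K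
          · rcases (Finset.mem_filter.1 h).2 with h1 | ⟨h1, h2, h3⟩
            · rcases (Finset.mem_filter.1 h').2 with h1' | ⟨h1', h2', h3'⟩
              · exact Or.inl (by rw [h1, h1'])
              · exact Or.inr (by rw [h1]; exact h3'.trans hxi)
            · rcases (Finset.mem_filter.1 h').2 with h1' | ⟨h1', h2', h3'⟩
              · exact Or.inl (by rw [h1']; exact h3.trans hxi)
              · exact hc2 z h1 w h1' (by rw [h2, h2'])
          · simp only [h, if_true, h', if_false] at hzw
            have := hc1' w (Finset.mem_sdiff.2 ⟨hw, h'⟩)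
            omega
        · by_cases h' : w ∈ K
          · simp only [h, if_false, h', if_true] at hzw
            have := hc1' z (Finset.mem_sdiff.2 ⟨hz, h⟩)
            omega
          · simp only [h, if_false, h'] at hzw
            exact hc2' z (Finset.mem_sdiff.2 ⟨hz, h⟩) w (Finset.mem_sdiff.2 ⟨hw, h'⟩) hzw
    · -- case 2
      push Not at hcase
      have hinj : Set.InjOn x (Finset.range k : Set ℕ) := by
        intro i hi j hj hij
        by_contra hne
        rw [Finset.coe_range] at hi hj
        exact hanti i hi j hj hne (by rw [hij])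
      have haA : a ∉ (Finset.range k).image x := by
        intro h
        obtain ⟨i, hi, hia⟩ := Finset.mem_image.1 h
        exact hcase i (Finset.mem_range.1 hi) (by rw [hia])
      have hkn : k + 1 ≤ n := by
        have h1 := hn (insert a ((Finset.range k).image x)) (by
          refine Finset.insert_subset ha ?_
          intro z hz
          obtain ⟨i, hi, rfl⟩ := Finset.mem_image.1 hz
          exact hsub (hx1 i (Finset.mem_range.1 hi))) (by
          intro z hz w hw hne hle
          rw [Finset.coe_insert, Finset.coe_image, Finset.coe_range] at hz hw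
          rcases hz with rfl | ⟨i, hi, rfl⟩
          · rcases hw with rfl | ⟨j, hj, rfl⟩
            · exact hne rfl
            · have := hamax (x j) (hsub (hx1 j hj)) hle
              exact hne this.symm
          · rcases hw with rfl | ⟨j, hj, rfl⟩
            · exact hcase i hi hle
            · have hij : j ≠ i := fun h => hne (by rw [h])
              exact hanti j hj i hi hij hle)
        rw [Finset.card_insert_of_notMem haA, Finset.card_image_of_injOn hinj, Finset.card_range] at h1
        exact h1
      refine ⟨fun z => if z = a then k else c z, fun z hz => ?_, fun z hz w hw hzw => ?_⟩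
      · by_cases h : z = a
        · simp only [h, if_true]
          omega
        · simp only [h, if_false]
          have := hc1 z (Finset.mem_erase.2 ⟨h, hz⟩)
          omega
      · by_cases h : z = a
        · by_cases h' : w = a
          · exact Or.inl (by rw [h, h'])
          · simp only [h, if_true, h', if_false] at hzw
            have := hc1 w (Finset.mem_erase.2 ⟨h', hw⟩)
            omega
        · by_cases h' : w = a
          · simp only [h, if_false, h', if_true] at hzw
            have := hc1 z (Finset.mem_erase.2 ⟨h, hz⟩)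
            omega
          · simp only [h, if_false, h'] at hzw
            exact hc2 z (Finset.mem_erase.2 ⟨h, hz⟩) w (Finset.mem_erase.2 ⟨h', hw⟩) hzw

end Pool.Agent.H54.CP
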