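import Pool.Agent.H88.CX.Sp
import Pool.Agent.H54.CP.Ideal

/-!
# [CCC P1, P2] Vertices of a pocset, the half-spaces between two vertices, positions, depth
-/

set_option autoImplicit false

namespace Pool.Agent.H54.CP

open Pool.Agent.H88.CX

variable {H : Type} [PartialOrder H] [Poc H]

/-- the half-spaces which contain `y` and do not contain `x` -/
def J (x y : Set H) : Set H := {h | h ∉ x ∧ h ∈ y}

/-- the distance of two vertices -/
noncomputable def d (x y : Set H) : ℕ := (J x y).ncard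

/-- two vertices are near: finitely many half-spaces separate them -/
abbrev Nr (x y : Set H) : Prop := (J x y).Finite

omit [PartialOrder H] [Poc H] in
theorem mem_J {x y : Set H} {h : H} : h ∈ J x y ↔ h ∉ x ∧ h ∈ y := Iff.rfl

theorem st_mem {x : Set H} (hx : IsVertex x) {h : H} : st h ∈ x ↔ h ∉ x := hx.st_mem h

theorem up_mem {x : Set H} (hx : IsVertex x) {h k : H} (hh : h ∈ x) (hk : h ≤ k) : k ∈ x := hx.up hh hk

theorem st_injective : Function.Injective (st : H → H) := fun h k e => by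
  rw [← Poc.st_st h, e, Poc.st_st]

theorem J_st {x y : Set H} (hx : IsVertex x) (hy : IsVertex y) {h : H} : st h ∈ J y x ↔ h ∈ J x y := by
  rw [mem_J, mem_J, st_mem hx, st_mem hy, not_not, and_comm]

theorem J_image {x y : Set H} (hx : IsVertex x) (hy : IsVertex y) : st '' J x y = J y x := by
  ext h
  constructor
  · rintro ⟨k, hk, rfl⟩
    exact (J_st hx hy).2 hk
  · intro hh
    refine ⟨st h, (J_st hy hx).2 hh, Poc.st_st h⟩

theorem Nr.symm {x y : Set H} (hx : IsVertex x) (hy : IsVertex y) (h : Nr x y) : Nr y x := by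
  rw [Nr, ← J_image hx hy]
  exact h.image _

omit [PartialOrder H] [Poc H] in
theorem J_self (x : Set H) : J x x = ∅ := by
  ext h
  simp only [mem_J, Set.mem_empty_iff_false, iff_false, not_and]
  exact fun h1 h2 => h1 h2

omit [PartialOrder H] [Poc H] in
theorem Nr.refl (x : Set H) : Nr x x := by
  rw [Nr, J_self]
  exact Set.finite_empty

omit [PartialOrder H] [Poc H] in
theorem J_subset (x y z : Set H) : J x z ⊆ J x y ∪ J y z := by
  intro h hh
  by_cases hy : h ∈ y
  · exact Or.inl ⟨hh.1, hy⟩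
  · exact Or.inr ⟨hy, hh.2⟩

omit [PartialOrder H] [Poc H] in
theorem Nr.trans {x y z : Set H} (h1 : Nr x y) (h2 : Nr y z) : Nr x z :=
  (h1.union h2).subset (J_subset x y z)

theorem d_comm {x y : Set H} (hx : IsVertex x) (hy : IsVertex y) : d x y = d y x := by
  unfold d
  rw [← J_image hx hy, Set.ncard_image_of_injective _ st_injective]

omit [PartialOrder H] [Poc H] in
theorem d_self (x : Set H) : d x x = 0 := by
  unfold d
  rw [J_self, Set.ncard_empty]

omit [PartialOrder H] [Poc H] in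
theorem d_triangle {x y z : Set H} (h1 : Nr x y) (h2 : Nr y z) : d x z ≤ d x y + d y z :=
  (Set.ncard_le_ncard (J_subset x y z) (h1.union h2)).trans (Set.ncard_union_le _ _)

theorem eq_of_d_eq_zero {x y : Set H} (hx : IsVertex x) (hy : IsVertex y) (h1 : Nr x y) (h : d x y = 0) :
    x = y := by
  have h2 : J x y = ∅ := (Set.ncard_eq_zero h1).1 h
  have h3 : J y x = ∅ := by rw [← J_image hx hy, h2, Set.image_empty]
  ext k
  constructor
  · intro hk
    by_contra hcon
    have : k ∈ J y x := ⟨hcon, hk⟩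
    rw [h3] at this
    exact this
  · intro hk
    by_contra hcon
    have : k ∈ J x y := ⟨hcon, hk⟩
    rw [h2] at this
    exact this

theorem J_up {x y : Set H} (hy : IsVertex y) {h k : H} (hh : h ∈ J x y) (hk : h ≤ k) (hkx : k ∉ x) :
    k ∈ J x y := ⟨hkx, up_mem hy hh.2 hk⟩

/-- half-spaces in `J x y` are not facing -/
theorem J_not_facing {x y : Set H} (hx : IsVertex x) (hy : IsVertex y) {h k : H} (hh : h ∈ J x y)
    (hk : k ∈ J x y) : ¬ h ≤ st k ∧ ¬ st h ≤ k := by
  constructor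
  · intro e
    exact (st_mem hy).1 (up_mem hy hh.2 e) hk.2
  · intro e
    exact hk.1 (up_mem hx ((st_mem hx).2 hh.1) e)

/-- no two half-spaces of the set are facing -/
def NoFace (U : Set H) : Prop := ∀ h ∈ U, ∀ k ∈ U, ¬ h ≤ st k ∧ ¬ st h ≤ k

theorem J_noFace {x y : Set H} (hx : IsVertex x) (hy : IsVertex y) : NoFace (J x y) :=
  fun _ hh _ hk => J_not_facing hx hy hh hk

theorem NoFace.mono {U V : Set H} (hV : NoFace V) (h : U ⊆ V) : NoFace U :=
  fun a ha b hb => hV a (h ha) b (h hb)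

theorem NoFace.width {n : ℕ} (hd : Dim H n) {U : Finset H} (hU : NoFace (U : Set H)) : Width n U := by
  intro t ht hta
  refine hd t fun h hh k hk hne => ⟨?_, ?_, ?_, ?_⟩
  · exact hta hh hk hne
  · exact hta hk hh (Ne.symm hne)
  · exact (hU h (ht hh) k (ht hk)).1
  · exact (hU h (ht hh) k (ht hk)).2

/-- the vertex beyond the half-spaces of `U` -/
def mv (x U : Set H) : Set H := {h | h ∈ U ∨ (h ∈ x ∧ st h ∉ U)}

theorem mv_isVertex {x U : Set H} (hx : IsVertex x)
    (hup : ∀ h ∈ U, ∀ k, h ≤ k → k ∉ x → k ∈ U) (hf : ∀ h ∈ U, ∀ k ∈ U, ¬ h ≤ st k) : IsVertex (mv x U) := by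
  refine ⟨?_, ?_⟩
  · intro h
    simp only [mv, Set.mem_ofPred_eq, Poc.st_st]
    constructor
    · rintro (h1 | ⟨h1, h2⟩)
      · rintro (h3 | ⟨h3, h4⟩)
        · exact hf h h3 (st h) h1 (by rw [Poc.st_st])
        · exact h4 h1
      · rintro (h3 | ⟨h3, h4⟩)
        · exact h2 h3
        · exact (st_mem hx).1 h1 h3
    · intro h1
      rw [not_or, not_and, not_not] at h1
      by_cases h2 : h ∈ x
      · exact Or.inl (h1.2 h2)
      · exact Or.inr ⟨(st_mem hx).2 h2, h1.1⟩
  · intro h k hh hk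
    simp only [mv, Set.mem_ofPred_eq] at hh ⊢
    rcases hh with h1 | ⟨h1, h2⟩
    · by_cases h3 : k ∈ x
      · refine Or.inr ⟨h3, fun h4 => ?_⟩
        exact hf h h1 (st k) h4 (by rwa [Poc.st_st])
      · exact Or.inl (hup h h1 k hk h3)
    · refine Or.inr ⟨up_mem hx h1 hk, fun h4 => h2 ?_⟩
      refine hup (st k) h4 (st h) (st_le_iff.2 hk) ?_
      rw [st_mem hx, not_not]
      exact h1

theorem J_mv {x U : Set H} (hU : ∀ h ∈ U, h ∉ x) : J x (mv x U) = U := by
  ext h
  simp only [mem_J, mv, Set.mem_ofPred_eq]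
  constructor
  · rintro ⟨h1, h2 | h2⟩
    · exact h2
    · exact absurd h2.1 h1
  · intro h1
    exact ⟨hU h h1, Or.inl h1⟩

/-- a vertex is determined by `J x y` -/
theorem eq_of_J_eq {x y z : Set H} (hx : IsVertex x) (hy : IsVertex y) (hz : IsVertex z) (h : J x y = J x z) :
    y = z := by
  have key : ∀ {y z : Set H}, IsVertex y → IsVertex z → J x y = J x z → y ⊆ z := by
    intro y z hy hz h k hk
    by_cases hkx : k ∈ x
    · by_contra hcon
      have h1 : st k ∈ J x z := ⟨by rw [st_mem hx, not_not]; exact hkx, (st_mem hz).2 hcon⟩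
      rw [← h] at h1
      exact (st_mem hy).1 h1.2 hk
    · have h1 : k ∈ J x y := ⟨hkx, hk⟩
      rw [h] at h1
      exact h1.2
  exact Set.Subset.antisymm (key hy hz h) (key hz hy h.symm)

/-- the distance of two vertices is the number of half-spaces of the symmetric difference -/
theorem J_diff {x y z : Set H} (hx : IsVertex x) (hy : IsVertex y) (hz : IsVertex z) :
    J y z = (J x z \ J x y) ∪ st '' (J x y \ J x z) := by
  ext h
  simp only [Set.mem_union, Set.mem_sdiff, Set.mem_image, mem_J]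
  constructor
  · rintro ⟨h1, h2⟩
    by_cases hhx : h ∈ x
    · refine Or.inr ⟨st h, ⟨⟨?_, (st_mem hy).2 h1⟩, ?_⟩, Poc.st_st h⟩
      · rw [st_mem hx, not_not]
        exact hhx
      · rintro ⟨_, h3⟩
        exact (st_mem hz).1 h3 h2
    · exact Or.inl ⟨⟨hhx, h2⟩, fun h3 => h1 h3.2⟩
  · rintro (⟨⟨h1, h2⟩, h3⟩ | ⟨k, ⟨⟨h1, h2⟩, h3⟩, rfl⟩)
    · exact ⟨fun h4 => h3 ⟨h1, h4⟩, h2⟩
    · constructor
      · rw [st_mem hy, not_not]
        exact h2
      · rw [st_mem hz]
        exact fun h4 => h3 ⟨h1, h4⟩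

/-- for finite sets of half-spaces -/
theorem d_eq_symmDiff [DecidableEq H] {x y z : Set H} (hx : IsVertex x) (hy : IsVertex y) (hz : IsVertex z)
    (hxy : Nr x y) (hxz : Nr x z) :
    d y z = (symmDiff hxy.toFinset hxz.toFinset).card := by
  have h1 : J y z = ((hxz.toFinset \ hxy.toFinset ∪ (hxy.toFinset \ hxz.toFinset).image st : Finset H) : Set H) := by
    rw [J_diff hx hy hz]
    push_cast
    rw [Set.Finite.coe_toFinset, Set.Finite.coe_toFinset]
  unfold d
  rw [h1, Set.ncard_coe_finset, Finset.card_union_of_disjoint, Finset.card_image_of_injective _ st_injective,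
    symmDiff_comm, symmDiff_def, Finset.sup_eq_union, Finset.card_union_of_disjoint]
  · exact disjoint_sdiff_sdiff
  · rw [Finset.disjoint_left]
    intro a ha hb
    obtain ⟨b, hb', rfl⟩ := Finset.mem_image.1 hb
    rw [Finset.mem_sdiff, Set.Finite.mem_toFinset] at ha hb'
    have h4 := ha.1.1
    rw [st_mem hx, not_not] at h4
    exact hb'.1.1 h4

/-- COUNTING of vertices `y` with `J x y` in `U` -/
theorem count_vertices {n t : ℕ} (hd : Dim H n) {x z : Set H} {U : Finset H} (hx : IsVertex x) (hz : IsVertex z)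
    (hU : NoFace (U : Set H)) (hzU : J x z ⊆ U) (F : Finset (Set H))
    (hF : ∀ y ∈ F, IsVertex y ∧ J x y ⊆ U ∧ d y z ≤ t) : F.card ≤ (2 * t + 1) ^ n := by
  classical
  have hnr : ∀ y : Set H, J x y ⊆ U → Nr x y := fun y hy => U.finite_toSet.subset hy
  set φ : Set H → Finset H := fun y => U.filter (fun h => h ∈ J x y) with hφ
  have hφ1 : ∀ y, (h : J x y ⊆ U) → φ y = (hnr y h).toFinset := by
    intro y h
    ext k
    rw [hφ, Finset.mem_filter, Set.Finite.mem_toFinset]
    exact ⟨fun h1 => h1.2, fun h1 => ⟨h h1, h1⟩⟩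
  have hup : ∀ y, IsVertex y → (∀ h ∈ U, h ∉ x) ∨ True → IsUp (U.filter (fun h => h ∉ x)) (φ y) := by
    intro y hy _
    refine ⟨?_, ?_⟩
    · intro h hh
      rw [hφ, Finset.mem_filter] at hh
      exact Finset.mem_filter.2 ⟨hh.1, hh.2.1⟩
    · intro h hh k hk hle
      rw [hφ, Finset.mem_filter] at hh
      rw [Finset.mem_filter] at hk
      exact Finset.mem_filter.2 ⟨hk.1, J_up hy hh.2 hle hk.2⟩
  have h1 := count_ideals (t := t) (B0 := φ z)
    ((hU.mono (by
      intro h hh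
      exact (Finset.mem_filter.1 hh).1 : ((U.filter (fun h => h ∉ x) : Finset H) : Set H) ⊆ U)).width hd)
    (hup z hz (Or.inr trivial)) (F.image φ) (by
      intro A hA
      obtain ⟨y, hy, rfl⟩ := Finset.mem_image.1 hA
      exact hup y (hF y hy).1 (Or.inr trivial)) (by
      intro A hA
      obtain ⟨y, hy, rfl⟩ := Finset.mem_image.1 hA
      obtain ⟨h1, h2, h3⟩ := hF y hy
      rw [hφ1 y h2, hφ1 z hzU, ← d_eq_symmDiff hx h1 hz (hnr y h2) (hnr z hzU)]
      exact h3)
  rwa [Finset.card_image_of_injOn] at h1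
  intro y hy y' hy' he
  obtain ⟨h1, h2, _⟩ := hF y hy
  obtain ⟨h1', h2', _⟩ := hF y' hy'
  refine eq_of_J_eq hx h1 h1' ?_
  change φ y = φ y' at he
  rw [hφ1 y h2, hφ1 y' h2'] at he
  rw [← Set.Finite.coe_toFinset (hnr y h2), he, Set.Finite.coe_toFinset]

/-- PACKING of vertices `y` with `J x y` in `U` -/
theorem pack_vertices {n a : ℕ} (hd : Dim H n) {x z : Set H} {U : Finset H} (hx : IsVertex x) (hz : IsVertex z)
    (hU : NoFace (U : Set H)) (hzU : J x z ⊆ U) (F : Finset (Set H))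
    (hF : ∀ y ∈ F, IsVertex y ∧ J x y ⊆ U ∧ d y z ≤ 4 * a)
    (ha : ∀ y ∈ F, ∀ y' ∈ F, y ≠ y' → a < d y y') : F.card ≤ (8 * n + 1) ^ n := by
  classical
  have hnr : ∀ y : Set H, J x y ⊆ U → Nr x y := fun y hy => U.finite_toSet.subset hy
  set φ : Set H → Finset H := fun y => U.filter (fun h => h ∈ J x y) with hφ
  have hφ1 : ∀ y, (h : J x y ⊆ U) → φ y = (hnr y h).toFinset := by
    intro y h
    ext k
    rw [hφ, Finset.mem_filter, Set.Finite.mem_toFinset]
    exact ⟨fun h1 => h1.2, fun h1 => ⟨h h1, h1⟩⟩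
  have hup : ∀ y, IsVertex y → IsUp (U.filter (fun h => h ∉ x)) (φ y) := by
    intro y hy
    refine ⟨?_, ?_⟩
    · intro h hh
      rw [hφ, Finset.mem_filter] at hh
      exact Finset.mem_filter.2 ⟨hh.1, hh.2.1⟩
    · intro h hh k hk hle
      rw [hφ, Finset.mem_filter] at hh
      rw [Finset.mem_filter] at hk
      exact Finset.mem_filter.2 ⟨hk.1, J_up hy hh.2 hle hk.2⟩
  have hinj : Set.InjOn φ (F : Set (Set H)) := by
    intro y hy y' hy' he
    obtain ⟨h1, h2, _⟩ := hF y hy
    obtain ⟨h1', h2', _⟩ := hF y' hy'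
    refine eq_of_J_eq hx h1 h1' ?_
    change φ y = φ y' at he
    rw [hφ1 y h2, hφ1 y' h2'] at he
    rw [← Set.Finite.coe_toFinset (hnr y h2), he, Set.Finite.coe_toFinset]
  have h1 := pack_ideals (a := a) (B0 := φ z)
    ((hU.mono (by
      intro h hh
      exact (Finset.mem_filter.1 hh).1 : ((U.filter (fun h => h ∉ x) : Finset H) : Set H) ⊆ U)).width hd)
    (hup z hz) (F.image φ) (by
      intro A hA
      obtain ⟨y, hy, rfl⟩ := Finset.mem_image.1 hA
      exact hup y (hF y hy).1) (by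
      intro A hA
      obtain ⟨y, hy, rfl⟩ := Finset.mem_image.1 hA
      obtain ⟨h1, h2, h3⟩ := hF y hy
      rw [hφ1 y h2, hφ1 z hzU, ← d_eq_symmDiff hx h1 hz (hnr y h2) (hnr z hzU)]
      exact h3) (by
      intro A hA B hB hne
      obtain ⟨y, hy, rfl⟩ := Finset.mem_image.1 hA
      obtain ⟨y', hy', rfl⟩ := Finset.mem_image.1 hB
      obtain ⟨h1, h2, h3⟩ := hF y hy
      obtain ⟨h1', h2', h3'⟩ := hF y' hy'
      rw [hφ1 y h2, hφ1 y' h2', ← d_eq_symmDiff hx h1 h1' (hnr y h2) (hnr y' h2')]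
      exact ha y hy y' hy' fun h => hne (by rw [h]))
  rwa [Finset.card_image_of_injOn hinj] at h1

end Pool.Agent.H54.CP
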