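import Pool.Agent.H54.CP.P1
import Pool.Agent.H88.CX.Ct
import Mathlib.Algebra.Group.Pointwise.Set.Basic
import Mathlib.Algebra.Group.Action.Pointwise.Set.Basic

/-!
# [CCC P2] Depth of half-spaces, chains, the action on vertices
-/

set_option autoImplicit false

namespace Pool.Agent.H54.CP

open Pool.Agent.H88.CX
open scoped Pointwise

section depth

variable {H : Type} [PartialOrder H] [Poc H]

omit [Poc H] in
/-- the half-spaces above `h` which do not contain `y` -/
def Up (y : Set H) (h : H) : Set H := {k | h ≤ k ∧ k ∉ y}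

/-- the depth of `h` seen from `y` -/
noncomputable def dep (y : Set H) (h : H) : ℕ := (Up y h).ncard

omit [Poc H] in
theorem mem_Up {y : Set H} {h k : H} : k ∈ Up y h ↔ h ≤ k ∧ k ∉ y := Iff.rfl

omit [Poc H] in
theorem self_mem_Up {y : Set H} {h : H} (hh : h ∉ y) : h ∈ Up y h := ⟨le_rfl, hh⟩

theorem Up_subset_J {y z : Set H} (hz : IsVertex z) {h : H} (hh : h ∈ z) : Up y h ⊆ J y z :=
  fun _ hk => ⟨hk.2, up_mem hz hh hk.1⟩

omit [Poc H] in
theorem Up_subset_of_le {y : Set H} {h h' : H} (hle : h' ≤ h) : Up y h ⊆ Up y h' :=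
  fun _ hk => ⟨hle.trans hk.1, hk.2⟩

omit [Poc H] in
theorem Up_subset_union (y z : Set H) (h : H) : Up y h ⊆ Up z h ∪ J y z := by
  intro k hk
  by_cases hkz : k ∈ z
  · exact Or.inr ⟨hk.2, hkz⟩
  · exact Or.inl ⟨hk.1, hkz⟩

theorem Up_finite {y z : Set H} (hz : IsVertex z) (hn : Nr y z) {h : H} (hh : h ∈ z) : (Up y h).Finite :=
  hn.subset (Up_subset_J hz hh)

theorem finUp_of_nr {x y : Set H} (hx : IsVertex x) (hxy : Nr y x) (hf : FinUp x) : FinUp y := by
  intro h hh
  by_cases hhx : h ∈ x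
  · exact Up_finite hx hxy hhx
  · exact ((hf h hhx).union hxy).subset (Up_subset_union y x h)

theorem dep_le_d {y z : Set H} (hz : IsVertex z) (hn : Nr y z) {h : H} (hh : h ∈ z) : dep y h ≤ d y z :=
  Set.ncard_le_ncard (Up_subset_J hz hh) hn

omit [Poc H] in
theorem dep_pos {y : Set H} {h : H} (hf : (Up y h).Finite) (hh : h ∉ y) : 0 < dep y h :=
  (Set.ncard_pos hf).2 ⟨h, self_mem_Up hh⟩

omit [Poc H] in
theorem dep_anti {y : Set H} {h h' : H} (hf : (Up y h').Finite) (hle : h' ≤ h) : dep y h ≤ dep y h' :=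
  Set.ncard_le_ncard (Up_subset_of_le hle) hf

omit [Poc H] in
theorem dep_lt {y : Set H} {h h' : H} (hf : (Up y h').Finite) (hlt : h' < h) (hh : h' ∉ y) :
    dep y h < dep y h' :=
  Set.ncard_lt_ncard (Set.ssubset_iff_subset_ne.2 ⟨Up_subset_of_le hlt.le, fun e => by
    have h1 : h' ∈ Up y h := e ▸ self_mem_Up hh
    exact absurd h1.1 hlt.not_ge⟩) hf

omit [Poc H] in
theorem dep_le_add {y z : Set H} {h : H} (hf : (Up z h).Finite) (hn : Nr y z) : dep y h ≤ dep z h + d y z :=
  (Set.ncard_le_ncard (Up_subset_union y z h) (hf.union hn)).trans (Set.ncard_union_le _ _)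

omit [Poc H] in
/-- chains of half-spaces of depth at most `D` have at most `D` elements -/
theorem chain_card_le {y : Set H} {D : ℕ} {t : Finset H} (ht : IsChain (· ≤ ·) (t : Set H))
    (hy : ∀ h ∈ t, h ∉ y) (hf : ∀ h ∈ t, (Up y h).Finite) (hD : ∀ h ∈ t, dep y h ≤ D) : t.card ≤ D := by
  rcases t.eq_empty_or_nonempty with h | hne
  · rw [h]
    exact Nat.zero_le _
  obtain ⟨x, hx, hmin⟩ := t.exists_minimal hne
  refine le_trans ?_ (hD x hx)
  rw [dep, ← Set.ncard_coe_finset]
  refine Set.ncard_le_ncard (fun z hz => ?_) (hf x hx)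
  refine ⟨?_, hy z hz⟩
  rcases ht.total hx hz with h | h
  · exact h
  · exact hmin hz h

/-- Mirsky: sets of half-spaces of depth at most `D` without facing pairs -/
theorem card_le_of_dep {n D : ℕ} (hd : Dim H n) {y : Set H} {t : Finset H} (ht : NoFace (t : Set H))
    (hy : ∀ h ∈ t, h ∉ y) (hf : ∀ h ∈ t, (Up y h).Finite) (hD : ∀ h ∈ t, dep y h ≤ D) : t.card ≤ n * D := by
  refine mirsky D t (ht.width hd) ?_
  intro u hu hc
  exact chain_card_le hc (fun h hh => hy h (hu hh)) (fun h hh => hf h (hu hh)) fun h hh => hD h (hu hh)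

/-- Mirsky: chains -/
theorem card_le_of_chain {n l : ℕ} (hd : Dim H n) {t : Finset H} (ht : NoFace (t : Set H))
    (hl : ∀ u ⊆ t, IsChain (· ≤ ·) (u : Set H) → u.card ≤ l) : t.card ≤ n * l :=
  mirsky l t (ht.width hd) hl

end depth

section act

variable {G H : Type} [Group G] [MulAction G H] [PartialOrder H] [Poc H] [ActPoc G H]

omit [ActPoc G H] [PartialOrder H] [Poc H] in
theorem mem_smul_iff (g : G) (x : Set H) (h : H) : h ∈ g • x ↔ g⁻¹ • h ∈ x := Set.mem_smul_set_iff_inv_smul_mem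

omit [ActPoc G H] [PartialOrder H] [Poc H] in
theorem smul_mem_smul_iff (g : G) (x : Set H) (h : H) : g • h ∈ g • x ↔ h ∈ x := Set.smul_mem_smul_set_iff

theorem isVertex_smul (g : G) {x : Set H} (hx : IsVertex x) : IsVertex (g • x) := by
  refine ⟨fun h => ?_, fun {h k} hh hk => ?_⟩
  · rw [mem_smul_iff, mem_smul_iff, smul_st, hx.st_mem]
  · rw [mem_smul_iff] at hh ⊢
    exact hx.up hh (smul_le_smul _ hk)

omit [ActPoc G H] [PartialOrder H] [Poc H] in
theorem J_smul (g : G) (x y : Set H) : J (g • x) (g • y) = g • J x y := by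
  ext h
  rw [mem_J, mem_smul_iff, mem_smul_iff, mem_smul_iff, mem_J]

omit [ActPoc G H] [PartialOrder H] [Poc H] in
theorem ncard_smul (g : G) (A : Set H) : (g • A).ncard = A.ncard :=
  Set.ncard_image_of_injective _ (MulAction.injective g)

omit [ActPoc G H] [PartialOrder H] [Poc H] in
theorem finite_smul (g : G) {A : Set H} : (g • A).Finite ↔ A.Finite := by
  constructor
  · intro h
    have h1 := h.image (fun k => g⁻¹ • k)
    refine h1.subset fun k hk => ⟨g • k, Set.smul_mem_smul_set hk, inv_smul_smul g k⟩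
  · exact fun h => h.image _

omit [ActPoc G H] [PartialOrder H] [Poc H] in
theorem d_smul (g : G) (x y : Set H) : d (g • x) (g • y) = d x y := by
  rw [d, J_smul, ncard_smul, d]

omit [ActPoc G H] [PartialOrder H] [Poc H] in
theorem nr_smul (g : G) {x y : Set H} : Nr (g • x) (g • y) ↔ Nr x y := by
  rw [Nr, J_smul, finite_smul]

theorem Up_smul (g : G) (y : Set H) (h : H) : Up (g • y) (g • h) = g • Up y h := by
  ext k
  rw [mem_Up, mem_smul_iff, mem_smul_iff, mem_Up]
  refine and_congr_left fun _ => ?_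
  rw [← smul_le_iff g (h := h), smul_inv_smul]

theorem dep_smul (g : G) (y : Set H) (h : H) : dep (g • y) (g • h) = dep y h := by
  rw [dep, Up_smul, ncard_smul, dep]

theorem crs_smul (g : G) {h k : H} : Crs (g • h) (g • k) ↔ Crs h k := by
  unfold Crs
  rw [← smul_st, ← smul_st, smul_le_iff, smul_le_iff, smul_le_iff, smul_le_iff]

theorem noFace_smul (g : G) {U : Set H} (hU : NoFace U) : NoFace (g • U) := by
  intro h hh k hk
  rw [mem_smul_iff] at hh hk
  have h1 := hU _ hh _ hk
  constructor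
  · intro e
    refine h1.1 ?_
    rw [← smul_st]
    exact smul_le_smul g⁻¹ e
  · intro e
    refine h1.2 ?_
    rw [← smul_st]
    exact smul_le_smul g⁻¹ e

theorem finUp_smul (g : G) {x : Set H} (hf : FinUp x) : FinUp (g • x) := by
  intro h hh
  rw [mem_smul_iff] at hh
  have h1 := hf _ hh
  have h2 : (Up (g • x) (g • (g⁻¹ • h))).Finite := by
    rw [Up_smul, finite_smul]
    exact h1
  rw [smul_inv_smul] at h2
  exact h2

end act

end Pool.Agent.H54.CP
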