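import Pool.Agent.H54.CP.P2
import Mathlib.Algebra.BigOperators.Finprod

/-!
# [CCC P4] Balls of the group, arrival times `tau` of half-spaces and their sums `ss`
-/

set_option autoImplicit false

namespace Pool.Agent.H54.CP

open Pool.Agent.H88.CX
open scoped Pointwise

section ball

variable {G : Type} [Group G]

/-- the products of `m` elements of `S` -/
def ball (S : Finset G) : ℕ → Set G
  | 0 => {1}
  | m + 1 => {u | ∃ v ∈ ball S m, ∃ s ∈ S, u = v * s}

theorem ball_zero {S : Finset G} {u : G} : u ∈ ball S 0 ↔ u = 1 := Iff.rfl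

theorem ball_succ {S : Finset G} {m : ℕ} {u : G} : u ∈ ball S (m + 1) ↔ ∃ v ∈ ball S m, ∃ s ∈ S, u = v * s := Iff.rfl

theorem ball_mul_mem {S : Finset G} {m : ℕ} {v s : G} (hv : v ∈ ball S m) (hs : s ∈ S) : v * s ∈ ball S (m + 1) :=
  ⟨v, hv, s, hs, rfl⟩

theorem ball_mul_mem' {S : Finset G} {m : ℕ} {v s : G} (hv : v ∈ ball S m) (hs : s ∈ S) : s * v ∈ ball S (m + 1) := by
  induction m generalizing v with
  | zero =>
    rw [ball_zero.1 hv, mul_one]
    exact ⟨1, rfl, s, hs, (one_mul s).symm⟩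
  | succ m ih =>
    obtain ⟨w, hw, t, ht, rfl⟩ := hv
    rw [← mul_assoc]
    exact ball_mul_mem (ih hw) ht

theorem ball_mono_succ {S : Finset G} (h1 : (1 : G) ∈ S) (m : ℕ) : ball S m ⊆ ball S (m + 1) := by
  intro u hu
  have := ball_mul_mem hu h1
  rwa [mul_one] at this

theorem ball_mono {S : Finset G} (h1 : (1 : G) ∈ S) {m m' : ℕ} (h : m ≤ m') : ball S m ⊆ ball S m' := by
  induction h with
  | refl => exact subset_rfl
  | step _ ih => exact ih.trans (ball_mono_succ h1 _)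

theorem mem_ball_one {S : Finset G} {s : G} (hs : s ∈ S) : s ∈ ball S 1 := ⟨1, rfl, s, hs, (one_mul s).symm⟩

theorem one_mem_ball {S : Finset G} (h1 : (1 : G) ∈ S) (m : ℕ) : (1 : G) ∈ ball S m :=
  ball_mono h1 (Nat.zero_le m) rfl

theorem mul_mem_ball {S : Finset G} {m m' : ℕ} {u v : G} (hu : u ∈ ball S m) (hv : v ∈ ball S m') :
    u * v ∈ ball S (m + m') := by
  induction m' generalizing v with
  | zero =>
    rw [ball_zero.1 hv, mul_one]
    exact hu
  | succ m' ih =>
    obtain ⟨w, hw, t, ht, rfl⟩ := hv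
    rw [← mul_assoc]
    exact ball_mul_mem (ih hw) ht

theorem inv_mem_ball {S : Finset G} (hS : ∀ s ∈ S, s⁻¹ ∈ S) {m : ℕ} {u : G} (hu : u ∈ ball S m) :
    u⁻¹ ∈ ball S m := by
  induction m generalizing u with
  | zero =>
    rw [ball_zero.1 hu, inv_one]
    rfl
  | succ m ih =>
    obtain ⟨v, hv, s, hs, rfl⟩ := hu
    rw [mul_inv_rev]
    exact ball_mul_mem' (ih hv) (hS s hs)

theorem ball_finite (S : Finset G) (m : ℕ) : (ball S m).Finite := by
  induction m with
  | zero => exact Set.finite_singleton 1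
  | succ m ih =>
    have h1 : ball S (m + 1) = Set.image2 (fun v s => v * s) (ball S m) S := by
      ext u
      simp only [Set.mem_image2, Finset.mem_coe]
      constructor
      · rintro ⟨v, hv, s, hs, rfl⟩
        exact ⟨v, hv, s, hs, rfl⟩
      · rintro ⟨v, hv, s, hs, rfl⟩
        exact ⟨v, hv, s, hs, rfl⟩
    rw [h1]
    exact ih.image2 _ S.finite_toSet

theorem ball_ncard_le (S : Finset G) (m : ℕ) : (ball S m).ncard ≤ S.card ^ m := by
  induction m with
  | zero => exact (Set.ncard_singleton (1 : G)).le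
  | succ m ih =>
    have h1 : ball S (m + 1) = (fun p : G × G => p.1 * p.2) '' (ball S m ×ˢ (S : Set G)) := by
      ext u
      constructor
      · rintro ⟨v, hv, s, hs, rfl⟩
        exact ⟨(v, s), ⟨hv, hs⟩, rfl⟩
      · rintro ⟨⟨v, s⟩, ⟨hv, hs⟩, rfl⟩
        exact ⟨v, hv, s, hs, rfl⟩
    rw [h1]
    refine (Set.ncard_image_le ((ball_finite S m).prod S.finite_toSet)).trans ?_
    rw [Set.ncard_prod, Set.ncard_coe_finset, pow_succ]
    exact Nat.mul_le_mul_right _ ih

end ball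

/-- the data of a group acting on a pocset with a generating set and a base vertex -/
structure GD {G H : Type} [Group G] [MulAction G H] [PartialOrder H] [Poc H] (S : Finset G) (x0 : Set H)
    (R n : ℕ) : Prop where
  one : (1 : G) ∈ S
  inv : ∀ s ∈ S, s⁻¹ ∈ S
  gen : ∀ g, ∃ m, g ∈ ball S m
  vx : IsVertex x0
  nr : ∀ s ∈ S, Nr x0 (s • x0)
  rad : ∀ s ∈ S, d x0 (s • x0) ≤ R
  sep : ∀ h : H, ∃ g : G, h ∈ g • x0
  dim : Dim H n

variable {G H : Type} [Group G] [MulAction G H] [PartialOrder H] [Poc H]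

/-- the time which a half-space needs to be reached from `g` -/
noncomputable def tau (S : Finset G) (x0 : Set H) (g : G) (h : H) : ℕ :=
  sInf {m | ∃ u ∈ ball S m, h ∈ (g * u) • x0}

/-- the sum of the arrival times of the half-spaces above `h` -/
noncomputable def ss (S : Finset G) (x0 : Set H) (g : G) (h : H) : ℕ :=
  ∑ᶠ k ∈ Up (g • x0) h, tau S x0 g k

namespace GD

variable {S : Finset G} {x0 : Set H} {R n : ℕ}

theorem nr_ball [ActPoc G H] (D : GD S x0 R n) {m : ℕ} {u : G} (hu : u ∈ ball S m) :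
    Nr x0 (u • x0) ∧ d x0 (u • x0) ≤ R * m := by
  induction m generalizing u with
  | zero =>
    rw [ball_zero.1 hu, one_smul]
    exact ⟨Nr.refl x0, (d_self x0).le⟩
  | succ m ih =>
    obtain ⟨v, hv, s, hs, rfl⟩ := hu
    obtain ⟨h1, h2⟩ := ih hv
    have h3 : Nr (v • x0) ((v * s) • x0) := by
      rw [mul_smul, nr_smul]
      exact D.nr s hs
    have h4 : d (v • x0) ((v * s) • x0) ≤ R := by
      rw [mul_smul, d_smul]
      exact D.rad s hs
    refine ⟨h1.trans h3, (d_triangle h1 h3).trans ?_⟩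
    rw [Nat.mul_succ]
    exact Nat.add_le_add h2 h4

theorem nr_all [ActPoc G H] (D : GD S x0 R n) (g g' : G) : Nr (g • x0) (g' • x0) := by
  obtain ⟨m, hm⟩ := D.gen (g⁻¹ * g')
  have h1 := (D.nr_ball hm).1
  rw [← nr_smul g, smul_smul, mul_inv_cancel_left] at h1
  exact h1

theorem d_ball [ActPoc G H] (D : GD S x0 R n) {m : ℕ} {u : G} (hu : u ∈ ball S m) (g : G) :
    d (g • x0) ((g * u) • x0) ≤ R * m := by
  rw [mul_smul, d_smul]
  exact (D.nr_ball hu).2

theorem d_step [ActPoc G H] (D : GD S x0 R n) {s : G} (hs : s ∈ S) (g : G) :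
    d (g • x0) ((g * s) • x0) ≤ R := by
  rw [mul_smul, d_smul]
  exact D.rad s hs

theorem vx_smul [ActPoc G H] (D : GD S x0 R n) (g : G) : IsVertex (g • x0) := isVertex_smul g D.vx

theorem up_finite [ActPoc G H] (D : GD S x0 R n) (g : G) (h : H) : (Up (g • x0) h).Finite := by
  obtain ⟨g', hg'⟩ := D.sep h
  exact Up_finite (D.vx_smul g') (D.nr_all g g') hg'

/-- the same for vertices near `x0` -/
theorem up_finite' [ActPoc G H] (D : GD S x0 R n) {y : Set H} (hy : Nr y x0) (h : H) : (Up y h).Finite := by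
  obtain ⟨g', hg'⟩ := D.sep h
  have h1 := D.nr_all 1 g'
  rw [one_smul] at h1
  exact Up_finite (D.vx_smul g') (hy.trans h1) hg'

theorem finUp [ActPoc G H] (D : GD S x0 R n) : FinUp x0 := by
  intro h _
  have := D.up_finite 1 h
  rwa [one_smul] at this

theorem tau_set_nonempty (D : GD S x0 R n) (g : G) (h : H) :
    {m | ∃ u ∈ ball S m, h ∈ (g * u) • x0}.Nonempty := by
  obtain ⟨g', hg'⟩ := D.sep h
  obtain ⟨m, hm⟩ := D.gen (g⁻¹ * g')
  exact ⟨m, g⁻¹ * g', hm, by rwa [mul_inv_cancel_left]⟩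

theorem tau_spec (D : GD S x0 R n) (g : G) (h : H) : ∃ u ∈ ball S (tau S x0 g h), h ∈ (g * u) • x0 :=
  Nat.sInf_mem (D.tau_set_nonempty g h)

omit [PartialOrder H] [Poc H] in
theorem tau_le {g u : G} {h : H} {m : ℕ} (hu : u ∈ ball S m) (hh : h ∈ (g * u) • x0) : tau S x0 g h ≤ m :=
  Nat.sInf_le ⟨u, hu, hh⟩

theorem tau_pos (D : GD S x0 R n) {g : G} {h : H} (hh : h ∉ g • x0) : 0 < tau S x0 g h := by
  rw [Nat.pos_iff_ne_zero]
  intro h0
  obtain ⟨u, hu, hhu⟩ := D.tau_spec g h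
  rw [h0] at hu
  rw [ball_zero.1 hu, mul_one] at hhu
  exact hh hhu

theorem tau_anti [ActPoc G H] (D : GD S x0 R n) (g : G) {h k : H} (hle : h ≤ k) : tau S x0 g k ≤ tau S x0 g h := by
  obtain ⟨u, hu, hhu⟩ := D.tau_spec g h
  exact tau_le hu (up_mem (D.vx_smul (g * u)) hhu hle)

omit [PartialOrder H] [Poc H] in
theorem tau_smul (g γ : G) (h : H) : tau S x0 (γ * g) (γ • h) = tau S x0 g h := by
  unfold tau
  congr 1
  ext m
  simp only [Set.mem_ofPred_eq]
  refine exists_congr fun u => and_congr_right fun _ => ?_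
  rw [mul_assoc, mul_smul γ, smul_mem_smul_iff]

theorem tau_step (D : GD S x0 R n) {s : G} (hs : s ∈ S) (g : G) (h : H) :
    tau S x0 g h ≤ tau S x0 (g * s) h + 1 := by
  obtain ⟨u, hu, hhu⟩ := D.tau_spec (g * s) h
  rw [mul_assoc] at hhu
  exact tau_le (ball_mul_mem' hu hs) hhu

theorem tau_step' (D : GD S x0 R n) {s : G} (hs : s ∈ S) (g : G) (h : H) :
    tau S x0 (g * s) h ≤ tau S x0 g h + 1 := by
  have h1 := D.tau_step (D.inv s hs) (g * s) h
  rwa [mul_inv_cancel_right] at h1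

omit [PartialOrder H] [Poc H] in
theorem tau_le_one {s g : G} (hs : s ∈ S) {h : H} (hh : h ∈ (g * s) • x0) : tau S x0 g h ≤ 1 :=
  tau_le (mem_ball_one hs) hh

theorem dep_le_tau [ActPoc G H] (D : GD S x0 R n) (g : G) (h : H) : dep (g • x0) h ≤ R * tau S x0 g h := by
  obtain ⟨u, hu, hhu⟩ := D.tau_spec g h
  exact (dep_le_d (D.vx_smul (g * u)) (D.nr_all g (g * u)) hhu).trans (D.d_ball hu g)

theorem ss_eq_sum [ActPoc G H] (D : GD S x0 R n) (g : G) (h : H) :
    ss S x0 g h = ∑ k ∈ (D.up_finite g h).toFinset, tau S x0 g k :=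
  finsum_mem_eq_finite_toFinset_sum _ (D.up_finite g h)

theorem ss_smul [ActPoc G H] (g γ : G) (h : H) : ss S x0 (γ * g) (γ • h) = ss S x0 g h := by
  unfold ss
  rw [mul_smul, Up_smul]
  have h1 : γ • Up (g • x0) h = (fun k => γ • k) '' Up (g • x0) h := rfl
  rw [h1, finsum_mem_image (MulAction.injective γ).injOn]
  exact finsum_congr fun k => finsum_congr fun _ => tau_smul g γ k

theorem tau_le_ss [ActPoc G H] (D : GD S x0 R n) {g : G} {h : H} (hh : h ∉ g • x0) :
    tau S x0 g h ≤ ss S x0 g h := by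
  rw [D.ss_eq_sum]
  exact Finset.single_le_sum (f := fun k => tau S x0 g k) (fun _ _ => Nat.zero_le _)
    ((Set.Finite.mem_toFinset _).2 (self_mem_Up hh))

theorem dep_le_ss [ActPoc G H] (D : GD S x0 R n) (g : G) (h : H) : dep (g • x0) h ≤ ss S x0 g h := by
  rw [D.ss_eq_sum, dep, Set.ncard_eq_toFinset_card _ (D.up_finite g h), Finset.card_eq_sum_ones]
  refine Finset.sum_le_sum fun k hk => ?_
  rw [Set.Finite.mem_toFinset] at hk
  exact D.tau_pos hk.2

/-- the growth of `ss` along nested half-spaces -/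
theorem ss_lt [ActPoc G H] (D : GD S x0 R n) {g : G} {h h' : H} (hlt : h' < h) (hh : h' ∉ g • x0) :
    ss S x0 g h + tau S x0 g h' ≤ ss S x0 g h' := by
  classical
  rw [D.ss_eq_sum, D.ss_eq_sum]
  have h1 : h' ∉ (D.up_finite g h).toFinset := by
    rw [Set.Finite.mem_toFinset]
    exact fun e => absurd e.1 hlt.not_ge
  rw [add_comm, ← Finset.sum_insert (f := fun k => tau S x0 g k) h1]
  refine Finset.sum_le_sum_of_subset fun k hk => ?_
  rw [Finset.mem_insert, Set.Finite.mem_toFinset] at hk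
  rw [Set.Finite.mem_toFinset]
  rcases hk with rfl | hk
  · exact self_mem_Up hh
  · exact Up_subset_of_le hlt.le hk

theorem ss_le [ActPoc G H] (D : GD S x0 R n) (g : G) (h : H) :
    ss S x0 g h ≤ dep (g • x0) h * tau S x0 g h := by
  rw [D.ss_eq_sum, dep, Set.ncard_eq_toFinset_card _ (D.up_finite g h), ← smul_eq_mul]
  refine Finset.sum_le_card_nsmul _ _ _ fun k hk => ?_
  rw [Set.Finite.mem_toFinset] at hk
  exact D.tau_anti g hk.1

/-- the change of `ss` under a step -/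
theorem ss_step [ActPoc G H] (D : GD S x0 R n) {s : G} (hs : s ∈ S) (g : G) (h : H) :
    ss S x0 g h ≤ ss S x0 (g * s) h + dep (g • x0) h + R := by
  classical
  rw [D.ss_eq_sum, D.ss_eq_sum]
  set A := (D.up_finite g h).toFinset with hA
  set B := (D.up_finite (g * s) h).toFinset with hB
  have h1 : A = (A ∩ B) ∪ (A \ B) := by
    ext k
    simp only [Finset.mem_union, Finset.mem_inter, Finset.mem_sdiff]
    tauto
  have h2 : Disjoint (A ∩ B) (A \ B) := by
    rw [Finset.disjoint_left]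
    intro k hk hk'
    exact (Finset.mem_sdiff.1 hk').2 (Finset.mem_inter.1 hk).2
  have h3 : ∑ k ∈ A, tau S x0 g k = ∑ k ∈ A ∩ B, tau S x0 g k + ∑ k ∈ A \ B, tau S x0 g k := by
    conv_lhs => rw [h1]
    exact Finset.sum_union h2
  have h4 : ∑ k ∈ A ∩ B, tau S x0 g k ≤ ∑ k ∈ B, tau S x0 (g * s) k + dep (g • x0) h := by
    calc ∑ k ∈ A ∩ B, tau S x0 g k ≤ ∑ k ∈ A ∩ B, (tau S x0 (g * s) k + 1) :=
          Finset.sum_le_sum fun k _ => D.tau_step hs g k
      _ = ∑ k ∈ A ∩ B, tau S x0 (g * s) k + (A ∩ B).card := by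
          rw [Finset.sum_add_distrib, Finset.card_eq_sum_ones]
      _ ≤ ∑ k ∈ B, tau S x0 (g * s) k + dep (g • x0) h := by
          refine Nat.add_le_add (Finset.sum_le_sum_of_subset Finset.inter_subset_right) ?_
          rw [dep, Set.ncard_eq_toFinset_card _ (D.up_finite g h)]
          exact Finset.card_le_card Finset.inter_subset_left
  have h5 : ∑ k ∈ A \ B, tau S x0 g k ≤ R := by
    have h6 : ∀ k ∈ A \ B, k ∈ J (g • x0) ((g * s) • x0) := by
      intro k hk
      rw [Finset.mem_sdiff, hA, hB, Set.Finite.mem_toFinset, Set.Finite.mem_toFinset] at hk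
      refine ⟨hk.1.2, ?_⟩
      by_contra hcon
      exact hk.2 ⟨hk.1.1, hcon⟩
    calc ∑ k ∈ A \ B, tau S x0 g k ≤ (A \ B).card • 1 :=
          Finset.sum_le_card_nsmul _ _ _ fun k hk => tau_le_one hs (h6 k hk).2
      _ = (A \ B).card := by rw [smul_eq_mul, mul_one]
      _ ≤ d (g • x0) ((g * s) • x0) := by
          rw [← Set.ncard_coe_finset]
          exact Set.ncard_le_ncard (fun k hk => h6 k (Finset.mem_coe.1 hk)) (D.nr_all g (g * s))
      _ ≤ R := D.d_step hs g
  omega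

theorem ss_step' [ActPoc G H] (D : GD S x0 R n) {s : G} (hs : s ∈ S) (g : G) (h : H) :
    ss S x0 (g * s) h ≤ ss S x0 g h + dep ((g * s) • x0) h + R := by
  have h1 := D.ss_step (D.inv s hs) (g * s) h
  rwa [mul_inv_cancel_right] at h1

/-- the change of the depth under a step -/
theorem dep_step [ActPoc G H] (D : GD S x0 R n) {s : G} (hs : s ∈ S) (g : G) (h : H) :
    dep (g • x0) h ≤ dep ((g * s) • x0) h + R :=
  (dep_le_add (D.up_finite (g * s) h) (D.nr_all g (g * s))).trans (Nat.add_le_add_left (D.d_step hs g) _)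

theorem dep_step' [ActPoc G H] (D : GD S x0 R n) {s : G} (hs : s ∈ S) (g : G) (h : H) :
    dep ((g * s) • x0) h ≤ dep (g • x0) h + R := by
  have h1 := D.dep_step (D.inv s hs) (g * s) h
  rwa [mul_inv_cancel_right] at h1

/-- the half-spaces which are reached in time `M` -/
def Rch (S : Finset G) (x0 : Set H) (g : G) (M : ℕ) : Set H := {h | h ∉ g • x0 ∧ tau S x0 g h ≤ M}

theorem rch_subset [ActPoc G H] (D : GD S x0 R n) (g : G) (M : ℕ) :
    Rch S x0 g M ⊆ ⋃ u ∈ ball S M, J (g • x0) ((g * u) • x0) := by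
  intro h hh
  obtain ⟨u, hu, hhu⟩ := D.tau_spec g h
  exact Set.mem_biUnion (ball_mono D.one hh.2 hu) ⟨hh.1, hhu⟩

theorem rch_finite [ActPoc G H] (D : GD S x0 R n) (g : G) (M : ℕ) : (Rch S x0 g M).Finite :=
  ((ball_finite S M).biUnion fun u _ => D.nr_all g (g * u)).subset (D.rch_subset g M)

theorem rch_ncard_le [ActPoc G H] (D : GD S x0 R n) (g : G) (M : ℕ) :
    (Rch S x0 g M).ncard ≤ S.card ^ M * (R * M) := by
  classical
  have h1 : Rch S x0 g M ⊆ (((ball_finite S M).toFinset.biUnion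
      (fun u => (D.nr_all g (g * u)).toFinset) : Finset H) : Set H) := by
    intro h hh
    obtain ⟨u, hu, hhu⟩ := Set.mem_iUnion₂.1 (D.rch_subset g M hh)
    rw [Finset.mem_coe, Finset.mem_biUnion]
    exact ⟨u, (Set.Finite.mem_toFinset _).2 hu, (Set.Finite.mem_toFinset _).2 hhu⟩
  refine (Set.ncard_le_ncard h1 (Finset.finite_toSet _)).trans ?_
  rw [Set.ncard_coe_finset]
  refine Finset.card_biUnion_le.trans ?_
  refine (Finset.sum_le_card_nsmul _ _ (R * M) fun u hu => ?_).trans ?_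
  · rw [Set.Finite.mem_toFinset] at hu
    rw [← Set.ncard_eq_toFinset_card _ (D.nr_all g (g * u))]
    exact D.d_ball hu g
  · rw [smul_eq_mul]
    refine Nat.mul_le_mul_right _ ?_
    rw [← Set.ncard_eq_toFinset_card _ (ball_finite S M)]
    exact ball_ncard_le S M

omit [PartialOrder H] [Poc H] in
theorem rch_smul (γ g : G) (M : ℕ) : Rch S x0 (γ * g) M = γ • Rch S x0 g M := by
  ext h
  rw [mem_smul_iff]
  unfold Rch
  simp only [Set.mem_ofPred_eq]
  have h1 := tau_smul (S := S) (x0 := x0) g γ (γ⁻¹ • h)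
  rw [smul_inv_smul] at h1
  rw [h1, mul_smul, mem_smul_iff γ]

end GD

end Pool.Agent.H54.CP
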